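import Mathlib

/-! # MP_1375b8_an, Q1: exactly which solutions are bounded -/

set_option autoImplicit false

namespace Pool.Agent.Results.MP_1375b8_an.Characterization

/-- `y` is a solution of the recursion with parameter `μ`. -/
def IsSolution (μ : ℝ) (y : ℕ → ℝ) : Prop :=
  (∀ n, y (2 * n + 1) = y (2 * n) + μ * (1 - Real.exp (y n))) ∧
    ∀ n, 1 ≤ n → y (2 * n) = y (2 * n - 1) + μ * (1 - Real.exp (y n))

/-- The solution is bounded. -/
def Bdd (y : ℕ → ℝ) : Prop := ∃ C, ∀ n, |y n| ≤ C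

lemma step {μ : ℝ} {y : ℕ → ℝ} (h : IsSolution μ y) (k : ℕ) :
    y (k + 1) = y k - μ * (Real.exp (y ((k + 1) / 2)) - 1) := by
  rcases Nat.even_or_odd' k with ⟨n, hn | hn⟩
  · have e : (k + 1) / 2 = n := by omega
    rw [e, hn, h.1]
    ring
  · have e : (k + 1) / 2 = n + 1 := by omega
    rw [e, hn, show 2 * n + 1 + 1 = 2 * (n + 1) by ring, h.2 (n + 1) (by omega),
      show 2 * (n + 1) - 1 = 2 * n + 1 by omega]
    ring

lemma F_bounds (B t σ : ℝ) (hσ : σ = 1 ∨ σ = -1) (hB : |t| ≤ B) (h : 0 ≤ σ * t) :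
    Real.exp (-B) * (σ * t) ≤ σ * (Real.exp t - 1) ∧
      σ * (Real.exp t - 1) ≤ Real.exp B * (σ * t) := by
  have hB0 : 0 ≤ B := (abs_nonneg t).trans hB
  have hBl : Real.exp (-B) ≤ 1 := Real.exp_le_one_iff.2 (by linarith)
  have hBu : 1 ≤ Real.exp B := Real.one_le_exp hB0
  rcases hσ with rfl | rfl
  · rw [one_mul] at h
    rw [abs_of_nonneg h] at hB
    have h1 := Real.add_one_le_exp t
    have h2 := Real.add_one_le_exp (-t)
    have h3 : Real.exp t ≤ Real.exp B := Real.exp_le_exp.2 hB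
    have h4 : Real.exp t * Real.exp (-t) = 1 := by rw [← Real.exp_add]; simp
    constructor
    · nlinarith
    · have h5 : Real.exp t - 1 ≤ t * Real.exp t := by
        have : Real.exp t * (-t + 1) ≤ Real.exp t * Real.exp (-t) :=
          mul_le_mul_of_nonneg_left h2 (Real.exp_pos t).le
        linarith
      nlinarith
  · have ht : t ≤ 0 := by linarith
    rw [abs_of_nonpos ht] at hB
    have h1 := Real.add_one_le_exp t
    have h2 := Real.add_one_le_exp (-t)
    have h3 : Real.exp (-B) ≤ Real.exp t := Real.exp_le_exp.2 (by linarith)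
    have h4 : Real.exp t * Real.exp (-t) = 1 := by rw [← Real.exp_add]; simp
    constructor
    · have h5 : -t * Real.exp t ≤ 1 - Real.exp t := by
        have : Real.exp t * (-t + 1) ≤ Real.exp t * Real.exp (-t) :=
          mul_le_mul_of_nonneg_left h2 (Real.exp_pos t).le
        linarith
      have h6 : Real.exp (-B) * (-t) ≤ Real.exp t * (-t) :=
        mul_le_mul_of_nonneg_right h3 (by linarith)
      linarith
    · have h5 : (1 : ℝ) * (-t) ≤ Real.exp B * (-t) :=
        mul_le_mul_of_nonneg_right hBu (by linarith)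
      linarith

section bounded

variable {μ B : ℝ} {y : ℕ → ℝ}

/-- a solution that is eventually zero vanishes from index one on -/
lemma zero_of_eventually_zero (hμ : 0 < μ) (h : IsSolution μ y)
    (hz : ∃ n, ∀ j, n ≤ j → y j = 0) : y 1 = 0 := by
  classical
  obtain ⟨N, hN⟩ : ∃ N, N = Nat.find hz := ⟨_, rfl⟩
  have hN1 : ∀ j, N ≤ j → y j = 0 := by rw [hN]; exact Nat.find_spec hz
  rcases Nat.lt_or_ge N 2 with hlt | hge
  · exact hN1 1 (by omega)
  · exfalso
    have : ∀ j, (N + 1) / 2 ≤ j → y j = 0 := by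
      intro j hj
      have h1 := step h (2 * j)
      rw [show (2 * j + 1) / 2 = j by omega, hN1 (2 * j) (by omega),
        hN1 (2 * j + 1) (by omega)] at h1
      have h2 : Real.exp (y j) - 1 = 0 := by
        rcases mul_eq_zero.1 (show μ * (Real.exp (y j) - 1) = 0 by linarith) with h3 | h3
        · exact absurd h3 hμ.ne'
        · exact h3
      have h3 : Real.exp (y j) = 1 := by linarith
      exact (Real.exp_eq_one_iff _).1 h3
    have h2 := Nat.find_min hz (m := (N + 1) / 2) (by rw [← hN]; omega)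
    exact h2 this

/-- existence of the next crossing -/
lemma next_crossing (hμ : 0 < μ) (h : IsSolution μ y) (hB : ∀ n, |y n| ≤ B) (hy1 : y 1 ≠ 0)
    (σ : ℝ) (hσ : σ = 1 ∨ σ = -1) (a : ℕ) (ha : 1 ≤ a) : ∃ j, a < j ∧ σ * y j < 0 := by
  by_contra hcon
  push Not at hcon
  apply hy1
  apply zero_of_eventually_zero hμ h
  -- monotone from `2 a + 1` on
  have hmono : ∀ k, 2 * a + 1 ≤ k → σ * y (k + 1) ≤ σ * y k := by
    intro k hk
    have h1 := hcon ((k + 1) / 2) (by omega)
    have h2 := (F_bounds B (y ((k + 1) / 2)) σ hσ (hB _) h1).1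
    have h3 : 0 ≤ Real.exp (-B) * (σ * y ((k + 1) / 2)) := by positivity
    rw [step h k]
    have h4 : 0 ≤ μ * (σ * (Real.exp (y ((k + 1) / 2)) - 1)) := by
      apply mul_nonneg hμ.le
      linarith
    linarith
  have hanti : ∀ i k, 2 * a + 1 ≤ k → σ * y (k + i) ≤ σ * y k := by
    intro i k hk
    induction i with
    | zero => exact le_rfl
    | succ i ih => exact (hmono (k + i) (by omega)).trans ih
  obtain ⟨n0, hn0⟩ := exists_nat_gt (1 / (μ * Real.exp (-B)))
  have hμc : 0 < μ * Real.exp (-B) := by positivity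
  rw [div_lt_iff₀ hμc] at hn0
  refine ⟨max n0 (4 * a + 2), fun n hn => ?_⟩
  have hn1 : n0 ≤ n := (le_max_left _ _).trans hn
  have hn2 : 4 * a + 2 ≤ n := (le_max_right _ _).trans hn
  have hdec : ∀ i, i ≤ n → σ * y (n + i) ≤ (σ * y n) * (1 - μ * Real.exp (-B) * i) := by
    intro i
    induction i with
    | zero => intro _; simp
    | succ i ih =>
      intro hi
      have h1 := ih (by omega)
      have h2 := hcon ((n + i + 1) / 2) (by omega)
      have h3 := (F_bounds B (y ((n + i + 1) / 2)) σ hσ (hB _) h2).1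
      have h4 : σ * y n ≤ σ * y ((n + i + 1) / 2) := by
        have := hanti (n - (n + i + 1) / 2) ((n + i + 1) / 2) (by omega)
        rwa [show (n + i + 1) / 2 + (n - (n + i + 1) / 2) = n by omega] at this
      have h5 : μ * Real.exp (-B) * (σ * y n) ≤ μ * (σ * (Real.exp (y ((n + i + 1) / 2)) - 1)) := by
        rw [mul_assoc]
        apply mul_le_mul_of_nonneg_left _ hμ.le
        refine le_trans ?_ h3
        exact mul_le_mul_of_nonneg_left h4 (Real.exp_pos _).le
      rw [← add_assoc, step h (n + i)]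
      push_cast
      linarith
  have h1 := hdec n le_rfl
  have h2 := hcon (n + n) (by omega)
  have h3 := hcon n (by omega)
  have h4 : (1 : ℝ) - μ * Real.exp (-B) * n < 0 := by
    have : (n0 : ℝ) ≤ n := by exact_mod_cast hn1
    nlinarith
  have h5 : σ * y n = 0 := by
    by_contra hne
    have : 0 < σ * y n := lt_of_le_of_ne h3 (Ne.symm hne)
    nlinarith
  rcases hσ with rfl | rfl
  · linarith
  · linarith

/-- crossing: `σ y ≤ 0` on `[τ/2, τ)` and `σ y τ > 0` -/
def Cross (y : ℕ → ℝ) (σ : ℝ) (τ : ℕ) : Prop :=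
  2 ≤ τ ∧ (∀ j, τ / 2 ≤ j → j < τ → σ * y j ≤ 0) ∧ 0 < σ * y τ

lemma rise (hμ : 0 < μ) (h : IsSolution μ y) (hB : ∀ n, |y n| ≤ B)
    (σ : ℝ) (hσ : σ = 1 ∨ σ = -1) (τ : ℕ) (hc : Cross y σ τ) :
    ∀ i j, τ ≤ j → j + i ≤ 2 * τ - 1 → σ * y j ≤ σ * y (j + i) := by
  intro i j hj
  induction i with
  | zero => intro _; exact le_rfl
  | succ i ih =>
    intro hi
    refine (ih (by omega)).trans ?_
    have h1 := hc.2.1 ((j + i + 1) / 2) (by omega) (by omega)
    have hσ' : -σ = 1 ∨ -σ = -1 := by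
      rcases hσ with rfl | rfl
      · right; rfl
      · left; norm_num
    have h2 := (F_bounds B (y ((j + i + 1) / 2)) (-σ) hσ' (hB _) (by linarith)).1
    have h3 : 0 ≤ Real.exp (-B) * (-σ * y ((j + i + 1) / 2)) :=
      mul_nonneg (Real.exp_pos _).le (by linarith)
    rw [← add_assoc, step h (j + i)]
    have h4 : 0 ≤ μ * (-σ * (Real.exp (y ((j + i + 1) / 2)) - 1)) := by
      apply mul_nonneg hμ.le
      linarith
    linarith

/-- the peaks at least double from one crossing to the next, if the crossing is late -/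
lemma peaks (hμ : 0 < μ) (h : IsSolution μ y) (hB : ∀ n, |y n| ≤ B) :
    ∃ T : ℕ, ∀ (σ : ℝ), (σ = 1 ∨ σ = -1) → ∀ τ τ' : ℕ, Cross y σ τ → τ < τ' → σ * y τ' < 0 →
      (∀ j, τ ≤ j → j < τ' → 0 ≤ σ * y j) → T ≤ τ →
      2 * (σ * y (2 * τ - 1)) ≤ -(σ * y (2 * τ' - 1)) := by
  obtain ⟨c, hc⟩ : ∃ c, c = Real.exp (-B) := ⟨_, rfl⟩
  obtain ⟨C, hC⟩ : ∃ C, C = Real.exp B := ⟨_, rfl⟩
  have hc0 : 0 < c := by rw [hc]; positivity
  have hC0 : 0 < C := by rw [hC]; positivity
  obtain ⟨D, hD⟩ : ∃ D, D = 3 / (2 * μ * c) := ⟨_, rfl⟩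
  have hD0 : 0 < D := by rw [hD]; positivity
  obtain ⟨s, hs⟩ := exists_nat_gt (2 * D)
  have hs0 : (0 : ℝ) < s := by linarith
  obtain ⟨η, hη⟩ : ∃ η, η = 1 / (2 * s * μ * C) := ⟨_, rfl⟩
  have hη0 : 0 < η := by rw [hη]; positivity
  obtain ⟨T, hT⟩ := exists_nat_gt (1 + s + D / η)
  refine ⟨T, ?_⟩
  intro σ hσ τ τ' hcr hττ' hneg hnn hTτ
  by_contra hcon
  push Not at hcon
  obtain ⟨M, hM⟩ : ∃ M, M = σ * y (2 * τ - 1) := ⟨_, rfl⟩
  rw [← hM] at hcon
  have hτ2 := hcr.1
  have hrise := rise hμ h hB σ hσ τ hcr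
  have hMpos : 0 < M := by
    have h1 := hrise (τ - 1) τ le_rfl (by omega)
    rw [show τ + (τ - 1) = 2 * τ - 1 by omega, ← hM] at h1
    exact lt_of_lt_of_le hcr.2.2 h1
  have hτ'2 : 2 * τ ≤ τ' := by
    by_contra hlt
    push Not at hlt
    have h1 := hrise (τ' - τ) τ le_rfl (by omega)
    rw [show τ + (τ' - τ) = τ' by omega] at h1
    linarith [hcr.2.2]
  have hTr : 1 + (s : ℝ) + D / η < τ := lt_of_lt_of_le hT (by exact_mod_cast hTτ)
  have hsτ : s + 1 ≤ τ := by
    have : (s : ℝ) + 1 < τ := by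
      have : 0 < D / η := by positivity
      linarith
    have h2 : (((s + 1 : ℕ) : ℝ)) < τ := by push_cast; exact this
    exact (by exact_mod_cast h2.le)
  -- the sum identity
  have hsum : ∀ n, σ * y (2 * (τ + n) - 1) = M - 2 * μ *
      ∑ j ∈ Finset.range n, σ * (Real.exp (y (τ + j)) - 1) := by
    intro n
    induction n with
    | zero => simp [hM]
    | succ n ih =>
      rw [Finset.sum_range_succ]
      have h1 := step h (2 * (τ + n) - 1)
      have h2 := step h (2 * (τ + n))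
      rw [show 2 * (τ + n) - 1 + 1 = 2 * (τ + n) by omega,
        show 2 * (τ + n) / 2 = τ + n by omega] at h1
      rw [show (2 * (τ + n) + 1) / 2 = τ + n by omega] at h2
      rw [show 2 * (τ + (n + 1)) - 1 = 2 * (τ + n) + 1 by omega, h2, h1]
      linear_combination ih
  obtain ⟨n, hn⟩ : ∃ n, τ' = τ + n := ⟨τ' - τ, by omega⟩
  have hFsum : ∑ j ∈ Finset.range n, c * (σ * y (τ + j)) ≤
      ∑ j ∈ Finset.range n, σ * (Real.exp (y (τ + j)) - 1) := by
    apply Finset.sum_le_sum
    intro j hj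
    rw [Finset.mem_range] at hj
    rw [hc]
    exact (F_bounds B (y (τ + j)) σ hσ (hB _) (hnn _ (by omega) (by omega))).1
  have hS : ∑ j ∈ Finset.range n, σ * y (τ + j) < D * M := by
    have h1 := hsum n
    rw [← hn] at h1
    rw [← Finset.mul_sum] at hFsum
    have h2 : 2 * μ * (c * ∑ j ∈ Finset.range n, σ * y (τ + j)) < 3 * M := by
      have h3 : 2 * μ * (c * ∑ j ∈ Finset.range n, σ * y (τ + j)) ≤
          2 * μ * ∑ j ∈ Finset.range n, σ * (Real.exp (y (τ + j)) - 1) :=
        mul_le_mul_of_nonneg_left hFsum (by positivity)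
      linarith
    have h4 : D * M = 3 * M / (2 * μ * c) := by rw [hD]; ring
    rw [h4, lt_div_iff₀ (by positivity)]
    linarith
  -- lower bounds of the sum by partial sums
  have hpart : ∀ (a k : ℕ) (v : ℝ), a + k ≤ n → (∀ j, a ≤ j → j < a + k → v ≤ σ * y (τ + j)) →
      (k : ℝ) * v ≤ ∑ j ∈ Finset.range n, σ * y (τ + j) := by
    intro a k v hak hv
    have h1 : (k : ℝ) * v ≤ ∑ j ∈ Finset.Ico a (a + k), σ * y (τ + j) := by
      have := Finset.card_nsmul_le_sum (Finset.Ico a (a + k)) (fun j => σ * y (τ + j)) v (by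
        intro j hj
        rw [Finset.mem_Ico] at hj
        exact hv j hj.1 hj.2)
      rw [Nat.card_Ico, nsmul_eq_mul] at this
      rwa [show a + k - a = k by omega] at this
    refine h1.trans ?_
    apply Finset.sum_le_sum_of_subset_of_nonneg
    · intro j hj
      rw [Finset.mem_Ico] at hj
      rw [Finset.mem_range]
      omega
    · intro j hj _
      rw [Finset.mem_range] at hj
      exact hnn _ (by omega) (by omega)
  -- the solution falls to `M/2` within `s` steps after the peak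
  obtain ⟨i0, hi0s, hi0n, hi0⟩ : ∃ i, i ≤ s ∧ 2 * τ - 1 + i ≤ τ' ∧
      σ * y (2 * τ - 1 + i) ≤ M / 2 := by
    by_contra hno
    push Not at hno
    have h1 : 2 * τ - 1 + s < τ' := by
      by_contra hge
      push Not at hge
      have h2 := hno (τ' - (2 * τ - 1)) (by omega) (by omega)
      rw [show 2 * τ - 1 + (τ' - (2 * τ - 1)) = τ' by omega] at h2
      linarith
    have h3 := hpart (τ - 1) s (M / 2) (by omega) (by
      intro j hj1 hj2
      have := hno (j - (τ - 1)) (by omega) (by omega)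
      rw [show 2 * τ - 1 + (j - (τ - 1)) = τ + j by omega] at this
      exact this.le)
    nlinarith
  -- hence some value just after the crossing is not small
  obtain ⟨j0, hj01, hj02, hj0⟩ : ∃ j, τ ≤ j ∧ j ≤ τ + s ∧ η * M ≤ σ * y j := by
    by_contra hno
    push Not at hno
    have hdrop : ∀ i, i ≤ i0 → M - i * (μ * C * (η * M)) ≤ σ * y (2 * τ - 1 + i) := by
      intro i
      induction i with
      | zero => intro _; simp [hM]
      | succ i ih =>
        intro hi
        have h1 := ih (by omega)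
        have hidx1 : τ ≤ (2 * τ - 1 + i + 1) / 2 := by omega
        have hidx2 : (2 * τ - 1 + i + 1) / 2 ≤ τ + s := by omega
        have h2 := hno _ hidx1 hidx2
        have h3 := hnn ((2 * τ - 1 + i + 1) / 2) hidx1 (by omega)
        have h4 := (F_bounds B (y ((2 * τ - 1 + i + 1) / 2)) σ hσ (hB _) h3).2
        rw [← hC] at h4
        have h5 : μ * (σ * (Real.exp (y ((2 * τ - 1 + i + 1) / 2)) - 1)) ≤ μ * C * (η * M) := by
          rw [mul_assoc]
          apply mul_le_mul_of_nonneg_left _ hμ.le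
          refine h4.trans ?_
          exact mul_le_mul_of_nonneg_left h2.le hC0.le
        rw [← add_assoc, step h (2 * τ - 1 + i)]
        push_cast
        linarith
    have h1 := hdrop i0 le_rfl
    have h2 : (i0 : ℝ) * (μ * C * (η * M)) ≤ M / 2 := by
      have h3 : (i0 : ℝ) ≤ s := by exact_mod_cast hi0s
      have h4 : (s : ℝ) * (μ * C * (η * M)) = M / 2 := by
        rw [hη]; field_simp
      have h5 : 0 ≤ μ * C * (η * M) := by positivity
      nlinarith
    -- strictness: there is at least one step and its drop is strictly smaller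
    rcases Nat.eq_zero_or_pos i0 with h0 | h0
    · rw [h0] at hi0
      simp only [add_zero] at hi0
      rw [← hM] at hi0
      linarith
    · -- redo the first step strictly
      have hstr : ∀ i, 1 ≤ i → i ≤ i0 → M - i * (μ * C * (η * M)) < σ * y (2 * τ - 1 + i) := by
        intro i hi1
        induction i with
        | zero => omega
        | succ i ih =>
          intro hi
          have h1' := hdrop i (by omega)
          have hidx1 : τ ≤ (2 * τ - 1 + i + 1) / 2 := by omega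
          have hidx2 : (2 * τ - 1 + i + 1) / 2 ≤ τ + s := by omega
          have h2' := hno _ hidx1 hidx2
          have h3' := hnn ((2 * τ - 1 + i + 1) / 2) hidx1 (by omega)
          have h4' := (F_bounds B (y ((2 * τ - 1 + i + 1) / 2)) σ hσ (hB _) h3').2
          rw [← hC] at h4'
          have h5' : μ * (σ * (Real.exp (y ((2 * τ - 1 + i + 1) / 2)) - 1)) <
              μ * C * (η * M) := by
            rw [mul_assoc]
            apply mul_lt_mul_of_pos_left _ hμ
            refine lt_of_le_of_lt h4' ?_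
            exact mul_lt_mul_of_pos_left h2' hC0
          rw [← add_assoc, step h (2 * τ - 1 + i)]
          push_cast
          linarith
      have := hstr i0 h0 le_rfl
      linarith
  -- so the sum is large
  have h1 := hpart s (τ - 1 - s) (η * M) (by omega) (by
    intro j hj1 hj2
    have := hrise (τ + j - j0) j0 hj01 (by omega)
    rw [show j0 + (τ + j - j0) = τ + j by omega] at this
    linarith)
  have h2 : (((τ - 1 - s : ℕ) : ℝ)) = τ - 1 - s := by
    rw [Nat.cast_sub (by omega), Nat.cast_sub (by omega)]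
    norm_num
  rw [h2] at h1
  have h3 : D / η < τ - 1 - s := by linarith
  rw [div_lt_iff₀ hη0] at h3
  nlinarith

/-- a bounded solution has `y 1 = 0` -/
lemma y1_zero (hμ : 0 < μ) (h : IsSolution μ y) (hB : ∀ n, |y n| ≤ B) : y 1 = 0 := by
  classical
  by_contra hy1
  obtain ⟨T, hT⟩ := peaks hμ h hB
  -- next crossing as a crossing
  have hnext : ∀ (σ : ℝ), (σ = 1 ∨ σ = -1) → ∀ a, 1 ≤ a → 0 < σ * y a →
      ∃ τ', a < τ' ∧ σ * y τ' < 0 ∧ ∀ j, a ≤ j → j < τ' → 0 ≤ σ * y j := by
    intro σ hσ a ha hpos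
    have hex : ∃ j, a < j ∧ σ * y j < 0 := next_crossing hμ h hB hy1 σ hσ a ha
    refine ⟨Nat.find hex, (Nat.find_spec hex).1, (Nat.find_spec hex).2, ?_⟩
    intro j hj1 hj2
    rcases eq_or_lt_of_le hj1 with heq | hlt
    · rw [← heq]; exact hpos.le
    · by_contra hneg
      push Not at hneg
      exact Nat.find_min hex hj2 ⟨hlt, hneg⟩
  have hneg1 : ∀ σ : ℝ, (σ = 1 ∨ σ = -1) → (-σ = 1 ∨ -σ = -1) := by
    intro σ hσ
    rcases hσ with rfl | rfl
    · right; rfl
    · left; norm_num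
  -- from a crossing to the next
  have hstep : ∀ (σ : ℝ), (σ = 1 ∨ σ = -1) → ∀ τ, Cross y σ τ → ∃ τ', Cross y (-σ) τ' ∧
      2 * τ ≤ τ' ∧ (T ≤ τ → 2 * (σ * y (2 * τ - 1)) ≤ -σ * y (2 * τ' - 1)) := by
    intro σ hσ τ hcr
    have h22 := hcr.1
    obtain ⟨τ', h1, h2, h3⟩ := hnext σ hσ τ (by omega) hcr.2.2
    have hτ'2 : 2 * τ ≤ τ' := by
      by_contra hlt
      push Not at hlt
      have h4 := rise hμ h hB σ hσ τ hcr (τ' - τ) τ le_rfl (by omega)
      rw [show τ + (τ' - τ) = τ' by omega] at h4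
      linarith [hcr.2.2]
    refine ⟨τ', ⟨by omega, ?_, by linarith⟩, hτ'2, ?_⟩
    · intro j hj1 hj2
      have := h3 j (by omega) hj2
      linarith
    · intro hTτ
      have := hT σ hσ τ τ' hcr h1 h2 h3 hTτ
      linarith
  -- base crossing
  obtain ⟨σ0, hσ0, τ0, hcr0⟩ : ∃ σ : ℝ, (σ = 1 ∨ σ = -1) ∧ ∃ τ, Cross y σ τ := by
    have hbase : ∀ σ : ℝ, (σ = 1 ∨ σ = -1) → 0 < σ * y 1 → ∃ τ, Cross y (-σ) τ := by
      intro σ hσ hpos
      obtain ⟨τ', h1, h2, h3⟩ := hnext σ hσ 1 le_rfl hpos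
      refine ⟨τ', by omega, ?_, by linarith⟩
      intro j hj1 hj2
      have := h3 j (by omega) hj2
      linarith
    rcases lt_or_gt_of_ne hy1 with hlt | hgt
    · obtain ⟨τ, hτ⟩ := hbase (-1) (Or.inr rfl) (by linarith)
      exact ⟨_, by norm_num, τ, hτ⟩
    · obtain ⟨τ, hτ⟩ := hbase 1 (Or.inl rfl) (by linarith)
      exact ⟨_, by norm_num, τ, hτ⟩
  -- a late crossing
  have hlate : ∀ n : ℕ, ∃ σ : ℝ, (σ = 1 ∨ σ = -1) ∧ ∃ τ, Cross y σ τ ∧ n ≤ τ := by
    intro n
    induction n with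
    | zero => exact ⟨σ0, hσ0, τ0, hcr0, Nat.zero_le _⟩
    | succ n ih =>
      obtain ⟨σ, hσ, τ, hcr, hn⟩ := ih
      obtain ⟨τ', hcr', h2, -⟩ := hstep σ hσ τ hcr
      have := hcr.1
      exact ⟨-σ, hneg1 σ hσ, τ', hcr', by omega⟩
  obtain ⟨σ1, hσ1, τ1, hcr1, hT1⟩ := hlate T
  have hM1 : 0 < σ1 * y (2 * τ1 - 1) := by
    have h1 := rise hμ h hB σ1 hσ1 τ1 hcr1 (τ1 - 1) τ1 le_rfl (by have := hcr1.1; omega)
    rw [show τ1 + (τ1 - 1) = 2 * τ1 - 1 by have := hcr1.1; omega] at h1
    exact lt_of_lt_of_le hcr1.2.2 h1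
  obtain ⟨M1, hM1e⟩ : ∃ M1, M1 = σ1 * y (2 * τ1 - 1) := ⟨_, rfl⟩
  rw [← hM1e] at hM1
  have hgrow : ∀ n : ℕ, ∃ σ : ℝ, (σ = 1 ∨ σ = -1) ∧ ∃ τ, Cross y σ τ ∧ T ≤ τ ∧
      2 ^ n * M1 ≤ σ * y (2 * τ - 1) := by
    intro n
    induction n with
    | zero => exact ⟨σ1, hσ1, τ1, hcr1, hT1, by rw [pow_zero, one_mul, hM1e]⟩
    | succ n ih =>
      obtain ⟨σ, hσ, τ, hcr, hTτ, hn⟩ := ih
      obtain ⟨τ', hcr', h2, h3⟩ := hstep σ hσ τ hcr
      refine ⟨-σ, hneg1 σ hσ, τ', hcr', by omega, ?_⟩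
      have := h3 hTτ
      rw [pow_succ]
      linarith
  obtain ⟨n, hn⟩ := pow_unbounded_of_one_lt (B / M1) (one_lt_two : (1 : ℝ) < 2)
  rw [div_lt_iff₀ hM1] at hn
  obtain ⟨σ, hσ, τ, -, -, h1⟩ := hgrow n
  have h2 := hB (2 * τ - 1)
  have h3 : σ * y (2 * τ - 1) ≤ |y (2 * τ - 1)| := by
    rcases hσ with rfl | rfl
    · rw [one_mul]; exact le_abs_self _
    · rw [neg_one_mul]; exact neg_le_abs _
  linarith

end bounded

/-- if `y 1 = 0` the solution vanishes from index one on -/
lemma zero_from_one {μ : ℝ} {y : ℕ → ℝ} (h : IsSolution μ y) (h1 : y 1 = 0) :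
    ∀ n, 1 ≤ n → y n = 0 := by
  intro n
  induction n using Nat.strong_induction_on with
  | _ n ih =>
    intro hn
    rcases Nat.lt_or_ge n 2 with hlt | hge
    · have : n = 1 := by omega
      rw [this, h1]
    · obtain ⟨k, hk⟩ : ∃ k, n = k + 1 := ⟨n - 1, by omega⟩
      rw [hk, step h k, ih k (by omega) (by omega), ih ((k + 1) / 2) (by omega) (by omega)]
      simp

/-- the solution with a given initial value -/
lemma exists_solution (μ y0 : ℝ) : ∃ y, IsSolution μ y ∧ y 0 = y0 := by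
  obtain ⟨Y, hY0, hY⟩ : ∃ Y : ℕ → ℕ → ℝ, (∀ i, Y 0 i = y0) ∧ ∀ k i, Y (k + 1) i =
      if i ≤ k then Y k i else Y k k - μ * (Real.exp (Y k ((k + 1) / 2)) - 1) := by
    refine ⟨fun k => Nat.rec (fun _ => y0) (fun k Yk i => if i ≤ k then Yk i else
      Yk k - μ * (Real.exp (Yk ((k + 1) / 2)) - 1)) k, fun i => rfl, fun k i => rfl⟩
  have hstab : ∀ k i, i ≤ k → Y k i = Y i i := by
    intro k
    induction k with
    | zero => intro i hi; rw [Nat.le_zero.1 hi]
    | succ k ih =>
      intro i hi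
      rcases Nat.lt_or_ge i (k + 1) with h | h
      · rw [hY, if_pos (by omega), ih i (by omega)]
      · rw [show i = k + 1 by omega]
  have hs : ∀ k, Y (k + 1) (k + 1) = Y k k - μ * (Real.exp (Y ((k + 1) / 2) ((k + 1) / 2)) - 1) := by
    intro k
    rcases Nat.eq_zero_or_pos k with h0 | h0
    · subst h0
      rw [hY, if_neg (by omega)]
    · rw [hY, if_neg (by omega), hstab k ((k + 1) / 2) (by omega)]
  refine ⟨fun n => Y n n, ⟨fun n => ?_, fun n hn => ?_⟩, hY0 0⟩
  · have := hs (2 * n)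
    rw [show (2 * n + 1) / 2 = n by omega] at this
    simp only
    rw [this]
    ring
  · have := hs (2 * n - 1)
    rw [show 2 * n - 1 + 1 = 2 * n by omega, show 2 * n / 2 = n by omega] at this
    simp only
    rw [this]
    ring

lemma bdd_iff {μ : ℝ} {y : ℕ → ℝ} (hμ : 0 < μ) (h : IsSolution μ y) :
    Bdd y ↔ y 0 = μ * (Real.exp (y 0) - 1) := by
  have e1 : y 1 = y 0 - μ * (Real.exp (y 0) - 1) := step h 0
  constructor
  · rintro ⟨B, hB⟩
    have := y1_zero hμ h hB
    linarith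
  · intro h0
    have h1 : y 1 = 0 := by linarith
    refine ⟨|y 0|, fun n => ?_⟩
    rcases Nat.eq_zero_or_pos n with hn | hn
    · rw [hn]
    · rw [zero_from_one h h1 n hn, abs_zero]
      exact abs_nonneg _

/-- **Answer to Q1.** The assertion is false (for every `μ < 1`, and only for these, there is a
bounded solution with `y 0 > 0`, in fact exactly one), and all other solutions are unbounded. -/
theorem result :
    (∀ μ : ℝ, 0 < μ → ∀ y : ℕ → ℝ, IsSolution μ y →
      (Bdd y ↔ y 0 = μ * (Real.exp (y 0) - 1))) ∧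
    (∀ μ : ℝ, 1 ≤ μ → ∀ y : ℕ → ℝ, IsSolution μ y → 0 < y 0 → ¬ Bdd y) ∧
    (∀ μ : ℝ, 0 < μ → μ < 1 → ∃ a : ℝ, 0 < a ∧ ∀ y : ℕ → ℝ, IsSolution μ y → 0 < y 0 →
      (Bdd y ↔ y 0 = a)) ∧
    (∃ μ : ℝ, 0 < μ ∧ ∃ y : ℕ → ℝ, IsSolution μ y ∧ 0 < y 0 ∧ Bdd y) := by
  have key3 : ∀ μ : ℝ, 0 < μ → μ < 1 → ∃ a : ℝ, 0 < a ∧ ∀ y : ℕ → ℝ, IsSolution μ y → 0 < y 0 →
      (Bdd y ↔ y 0 = a) := by
    intro μ hμ hμ1
    -- existence of the positive zero
    have hcont : ContinuousOn (fun t : ℝ => μ * (Real.exp t - 1) - t)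
        (Set.Icc (Real.log (1 / μ)) (Real.log (1 / μ) + 2 / μ)) := by fun_prop
    have hlog : 0 < Real.log (1 / μ) := Real.log_pos (by rw [lt_div_iff₀ hμ]; linarith)
    have hμ2 : 0 < 2 / μ := by positivity
    have h1 : μ * (Real.exp (Real.log (1 / μ)) - 1) - Real.log (1 / μ) ≤ 0 := by
      rw [Real.exp_log (by positivity)]
      have h2 : Real.log μ ≤ μ - 1 := Real.log_le_sub_one_of_pos hμ
      have h3 : Real.log (1 / μ) = -Real.log μ := by rw [one_div, Real.log_inv]
      have h4 : μ * (1 / μ - 1) = 1 - μ := by field_simp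
      rw [h3, h4]
      linarith
    have h2 : 0 ≤ μ * (Real.exp (Real.log (1 / μ) + 2 / μ) - 1) - (Real.log (1 / μ) + 2 / μ) := by
      have h3 := Real.quadratic_le_exp_of_nonneg (show 0 ≤ Real.log (1 / μ) + 2 / μ by linarith)
      have h4 : 2 / μ ≤ Real.log (1 / μ) + 2 / μ := by linarith
      generalize Real.log (1 / μ) + 2 / μ = t at *
      have h5 : 2 ≤ μ * t := by
        rw [div_le_iff₀ hμ] at h4; linarith
      have h6 : 0 < t := by linarith
      have h7 : μ * (1 + t + t ^ 2 / 2) ≤ μ * Real.exp t := mul_le_mul_of_nonneg_left h3 hμ.le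
      nlinarith
    obtain ⟨a, ha1, ha2⟩ := intermediate_value_Icc (by linarith) hcont
      (show (0 : ℝ) ∈ Set.Icc _ _ from ⟨h1, h2⟩)
    simp only at ha2
    have ha0 : 0 < a := lt_of_lt_of_le hlog ha1.1
    -- uniqueness
    have huniq : ∀ s t : ℝ, 0 < s → s < t → s = μ * (Real.exp s - 1) →
        t = μ * (Real.exp t - 1) → False := by
      intro s t hs hst h3 h4
      have ht : 0 < t := by linarith
      have h5 := strictConvexOn_exp.2 (Set.mem_univ t) (Set.mem_univ (0 : ℝ)) (ne_of_gt ht)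
        (show 0 < s / t by positivity) (show 0 < 1 - s / t by
          rw [sub_pos, div_lt_one ht]; exact hst) (by ring)
      simp only [smul_eq_mul, mul_zero, add_zero, Real.exp_zero, mul_one] at h5
      rw [div_mul_cancel₀ _ ht.ne'] at h5
      have h6 : t * Real.exp s < s * Real.exp t + (t - s) := by
        have := mul_lt_mul_of_pos_left h5 ht
        have h7 : t * (s / t * Real.exp t + (1 - s / t)) = s * Real.exp t + (t - s) := by
          field_simp
        linarith
      have h8 : t * (Real.exp s - 1) < s * (Real.exp t - 1) := by linarith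
      have h9 : μ * (t * (Real.exp s - 1)) < μ * (s * (Real.exp t - 1)) :=
        mul_lt_mul_of_pos_left h8 hμ
      have h10 : μ * (t * (Real.exp s - 1)) = t * s := by
        calc μ * (t * (Real.exp s - 1)) = t * (μ * (Real.exp s - 1)) := by ring
          _ = t * s := by rw [← h3]
      have h11 : μ * (s * (Real.exp t - 1)) = s * t := by
        calc μ * (s * (Real.exp t - 1)) = s * (μ * (Real.exp t - 1)) := by ring
          _ = s * t := by rw [← h4]
      linarith
    refine ⟨a, ha0, fun y hy hy0 => ?_⟩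
    rw [bdd_iff hμ hy]
    constructor
    · intro h3
      rcases lt_trichotomy (y 0) a with hlt | heq | hgt
      · exact (huniq _ _ hy0 hlt h3 (by linarith)).elim
      · exact heq
      · exact (huniq _ _ ha0 hgt (by linarith) h3).elim
    · intro h3
      rw [h3]
      linarith
  refine ⟨fun μ hμ y hy => bdd_iff hμ hy, ?_, key3, ?_⟩
  · intro μ hμ y hy hy0
    rw [bdd_iff (by linarith) hy]
    have h1 : y 0 + 1 < Real.exp (y 0) := Real.add_one_lt_exp hy0.ne'
    nlinarith
  · obtain ⟨a, ha0, ha⟩ := key3 (1 / 2) (by norm_num) (by norm_num)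
    obtain ⟨y, hy, hy0⟩ := exists_solution (1 / 2) a
    exact ⟨1 / 2, by norm_num, y, hy, by rw [hy0]; exact ha0,
      (ha y hy (by rw [hy0]; exact ha0)).2 hy0⟩

end Pool.Agent.Results.MP_1375b8_an.Characterization
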